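import Pool.Agent.Y660.FB.Main

/-!
# Charged fermions bind

MP_791321_mp: for every `N ≥ 2` and every sufficiently small cutoff `Λ`, `N` spin-1/2 fermions
coupled to the quantized radiation field bind if the coupling constant is large, uniformly in the
volume.
-/

set_option autoImplicit false

namespace Pool.Agent.Results.MP_791321_mp.AllParticleNumbers

open Pool.Agent.Y660.FB

/-- For every `N ≥ 2` there is `c > 0` such that for all `Λ ≤ c`, `α ≥ 1 / (c Λ)` and all
`L ≥ 1 / (c Λ)`, for every choice of the polarisation vectors (and there is one), the ground state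
energies satisfy `E_0(N) + Λ ≤ N E_0(1)`. -/
theorem result (N : ℕ) (hN : 2 ≤ N) : ∃ c : ℝ, 0 < c ∧ ∀ Λ α L : ℝ, 0 < Λ → Λ ≤ c →
    1 / (c * Λ) ≤ α → 1 / (c * Λ) ≤ L →
      (∃ ε, IsPol L ε) ∧
      ∀ ε, IsPol L ε → E0 (boxF Λ L ε) α N + Λ ≤ N * E0 (boxF Λ L ε) α 1 := by
  obtain ⟨c, hc, h⟩ := bind N hN
  refine ⟨c, hc, fun Λ α L h1 h2 h3 h4 => ?_⟩
  have hcΛ : 0 < c * Λ := mul_pos hc h1
  rw [div_le_iff₀ hcΛ] at h3 h4
  have hL : 0 < L := by
    by_contra hcon
    have : L * (c * Λ) ≤ 0 := mul_nonpos_of_nonpos_of_nonneg (not_lt.1 hcon) hcΛ.le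
    linarith
  exact ⟨exists_pol hL, fun ε hε => h Λ α L h1 h2 (by linarith) (by linarith) ε hε⟩

end Pool.Agent.Results.MP_791321_mp.AllParticleNumbers
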